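import Pool.Agent.W2helper37.DP.Stm2

/-!
# Project DP, piece MAS: Martin's axiom excludes Suslin trees
-/

set_option autoImplicit false

namespace Pool.Agent.W2helper51.DP

open Set Cardinal Ordinal Pool.Agent.W2helper37.DP Pool.Agent.H42.Dom

theorem Iio_countable {α : Ordinal.{0}} (h : α < ω₁) : (Iio α).Countable := by
  rw [← Cardinal.le_aleph0_iff_set_countable, Cardinal.mk_Iio_ordinal, Cardinal.lift_le_aleph0]
  have h1 : α.card < ℵ₁ := Cardinal.lt_ord.1 (by rw [Cardinal.ord_aleph]; exact h)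
  rw [← Cardinal.succ_aleph0] at h1
  exact Order.lt_succ_iff.1 h1

/-- MAS -/
theorem p_mas : P_MAS := by
  rintro hMA ⟨T, _, hne, hwf, hch, hcone, hchain, hanti, -⟩
  classical
  let rk : T → Ordinal.{0} := IsWellFounded.rank (· < ·)
  have hrk : ∀ {s t : T}, s < t → rk s < rk t := fun h => IsWellFounded.rank_lt_of_rel h
  have hIio : ∀ t : T, (Iio t).Countable := fun t => hchain _ (hch t)
  have hlt : ∀ t : T, rk t < ω₁ := by
    intro t
    induction t using WellFoundedLT.induction with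
    | ind t ih =>
      rw [show rk t = ⨆ b : {b // b < t}, Order.succ (rk b) from IsWellFounded.rank_eq _ t]
      have : Countable {b // b < t} := (hIio t).to_subtype
      exact Ordinal.iSup_lt_omega_one fun b => (isSuccLimit_omega 1).succ_lt (ih b b.2)
  have hlev : ∀ α : Ordinal.{0}, {t | rk t = α}.Countable := fun α => hanti _ (by
    intro s hs t ht hst hle
    have h1 := hrk (lt_of_le_of_ne hle hst)
    rw [show rk s = α from hs, show rk t = α from ht] at h1
    exact lt_irrefl _ h1)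
  have hbel : ∀ α : Ordinal.{0}, α < ω₁ → {t | rk t < α}.Countable := by
    intro α hα
    have h1 : {t | rk t < α} = ⋃ β ∈ Iio α, {t | rk t = β} := by
      ext t
      simp
    rw [h1]
    exact (Iio_countable hα).biUnion fun β _ => hlev β
  have hdense : ∀ α : Ordinal.{0}, α < ω₁ → ∀ p : T, ∃ q, p ≤ q ∧ α ≤ rk q := by
    intro α hα p
    by_contra hcon
    push Not at hcon
    exact hcone p ((hbel α hα).mono fun q hq => hcon q hq)
  have hord : (ℵ₁ : Cardinal.{0}).ord = ω₁ := Cardinal.ord_aleph 1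
  let D : (ℵ₁ : Cardinal.{0}).ord.ToType → Set Tᵒᵈ := fun w =>
    {p | ((Ordinal.ToType.mk.symm w : Iio (ℵ₁ : Cardinal.{0}).ord) : Ordinal.{0}) ≤
      rk (OrderDual.ofDual p)}
  have : Nonempty Tᵒᵈ := hne
  obtain ⟨G, -, hdir, hmeet⟩ := hMA Tᵒᵈ (by
    intro A hA
    have h1 : IsAntichain (· ≤ ·) (OrderDual.toDual ⁻¹' A : Set T) := by
      intro s hs t ht hst hle
      exact hA hs ht (fun h => hst (OrderDual.toDual.injective h))
        ⟨OrderDual.toDual t, OrderDual.toDual_le_toDual.2 hle, le_rfl⟩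
    exact hanti _ h1) (Set.range D) (by
      refine Cardinal.mk_range_le.trans ?_
      rw [Cardinal.mk_ord_toType]) (by
      rintro _ ⟨w, rfl⟩ p
      obtain ⟨q, hq, hq'⟩ := hdense
        ((Ordinal.ToType.mk.symm w : Iio (ℵ₁ : Cardinal.{0}).ord) : Ordinal.{0})
        (lt_of_lt_of_eq (Ordinal.ToType.mk.symm w).2 hord) (OrderDual.ofDual p)
      exact ⟨OrderDual.toDual q, hq', hq⟩)
  have hGc : IsChain (· ≤ ·) (OrderDual.toDual ⁻¹' G : Set T) := by
    intro s hs t ht hst
    obtain ⟨r, -, h1, h2⟩ := hdir _ hs _ ht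
    have h1' : s ≤ OrderDual.ofDual r := h1
    have h2' : t ≤ OrderDual.ofDual r := h2
    rcases h1'.eq_or_lt with h3 | h3
    · exact Or.inr (h3 ▸ h2')
    · rcases h2'.eq_or_lt with h4 | h4
      · exact Or.inl (h4 ▸ h1')
      · exact hch _ h3 h4 hst
  have hGcount : Countable (OrderDual.toDual ⁻¹' G : Set T) := (hchain _ hGc).to_subtype
  let σ : Ordinal.{0} := ⨆ g : (OrderDual.toDual ⁻¹' G : Set T), Order.succ (rk g)
  have hσ : σ < ω₁ := Ordinal.iSup_lt_omega_one fun g =>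
    (isSuccLimit_omega 1).succ_lt (hlt g)
  obtain ⟨g, hgG, hgD⟩ := hmeet (D (Ordinal.ToType.mk ⟨σ, by rw [mem_Iio, hord]; exact hσ⟩))
    ⟨_, rfl⟩
  have h1 : σ ≤ rk (OrderDual.ofDual g) := by
    have h2 : ((Ordinal.ToType.mk.symm (Ordinal.ToType.mk ⟨σ, by rw [mem_Iio, hord]; exact hσ⟩) :
      Iio (ℵ₁ : Cardinal.{0}).ord) : Ordinal.{0}) ≤ rk (OrderDual.ofDual g) := hgD
    rwa [OrderIso.symm_apply_apply] at h2
  have h3 : Order.succ (rk (OrderDual.ofDual g)) ≤ σ :=
    Ordinal.le_iSup (fun g : (OrderDual.toDual ⁻¹' G : Set T) => Order.succ (rk g))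
      ⟨OrderDual.ofDual g, hgG⟩
  exact absurd (Order.lt_succ (rk (OrderDual.ofDual g))) (not_lt.2 (h3.trans h1))

end Pool.Agent.W2helper51.DP
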