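import Pool.Agent.W2helper37.DP.Stm

/-!
# Project DP, piece SUP: open sets of a ccc power have essentially countable support
-/

set_option autoImplicit false

namespace Pool.Agent.W2helper51.DP

open Set Pool.Agent.W2helper37.DP

universe u v

/-- SUP -/
theorem p_sup : P_SUP.{u, v} := by
  classical
  intro X _ ι hccc U hU
  let Bx : Set (Set (ι → X)) := {V | V.Nonempty ∧ V ⊆ U ∧
    ∃ (t : Finset ι) (H : ι → Set X), (∀ i ∈ t, IsOpen (H i)) ∧ V = (t : Set ι).pi H}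
  obtain ⟨𝒱, h𝒱⟩ := zorn_subset {𝒱 : Set (Set (ι → X)) | 𝒱 ⊆ Bx ∧ 𝒱.PairwiseDisjoint id} (by
    intro c hc hchain
    refine ⟨⋃₀ c, ⟨?_, ?_⟩, fun s hs => Set.subset_sUnion_of_mem hs⟩
    · intro V hV
      obtain ⟨𝒲, h𝒲, hV⟩ := hV
      exact (hc h𝒲).1 hV
    · exact (Set.pairwiseDisjoint_sUnion hchain.directedOn).2 (fun a ha => (hc ha).2))
  have hB : ∀ V ∈ 𝒱, V ∈ Bx := fun V hV => h𝒱.prop.1 hV
  have hD : 𝒱.PairwiseDisjoint id := h𝒱.prop.2
  have hopen : ∀ V ∈ Bx, IsOpen V := by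
    rintro V ⟨-, -, t, H, hH, rfl⟩
    exact isOpen_set_pi t.finite_toSet hH
  have hcount : 𝒱.Countable := hccc 𝒱 (fun W hW => ⟨hopen W (hB W hW), (hB W hW).1⟩) hD
  have hch : ∀ V : Set (ι → X), ∃ (t : Finset ι) (H : ι → Set X), V ∈ Bx → V = (t : Set ι).pi H := by
    intro V
    by_cases hV : V ∈ Bx
    · obtain ⟨-, -, t, H, -, h⟩ := hV
      exact ⟨t, H, fun _ => h⟩
    · exact ⟨∅, fun _ => ∅, fun h => absurd h hV⟩
  choose t H htH using hch
  refine ⟨⋃ V ∈ 𝒱, (t V : Set ι), hcount.biUnion fun V _ => (t V).countable_toSet, ?_⟩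
  intro A' hA' s G hG hx
  obtain ⟨x, hxU, hxG⟩ := hx
  have hO : IsOpen (U ∩ ((s : Set ι) ∩ A').pi G) :=
    hU.inter (isOpen_set_pi (s.finite_toSet.subset inter_subset_left) fun i _ => (hG i).1)
  have hxO : x ∈ U ∩ ((s : Set ι) ∩ A').pi G := ⟨hxU, fun i hi => hxG i hi.1 hi.2⟩
  obtain ⟨I, u, hIu, hsub⟩ := isOpen_pi_iff.1 hO x hxO
  have hxB : x ∈ (I : Set ι).pi u := fun i hi => (hIu i hi).2
  have hBB : (I : Set ι).pi u ∈ Bx :=
    ⟨⟨x, hxB⟩, fun y hy => (hsub hy).1, I, u, fun i hi => (hIu i hi).1, rfl⟩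
  obtain ⟨V, hV, y, hyB, hyV⟩ : ∃ V ∈ 𝒱, ∃ y, y ∈ (I : Set ι).pi u ∧ y ∈ V := by
    by_contra hcon
    push Not at hcon
    have hins : insert ((I : Set ι).pi u) 𝒱 ∈
        {𝒱 : Set (Set (ι → X)) | 𝒱 ⊆ Bx ∧ 𝒱.PairwiseDisjoint id} := by
      refine ⟨?_, ?_⟩
      · intro V hV
        rcases hV with rfl | hV
        · exact hBB
        · exact hB V hV
      · refine hD.insert fun V hV _ => ?_
        exact Set.disjoint_left.2 fun y hy hyV => hcon V hV y hy hyV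
    have hmem : (I : Set ι).pi u ∈ 𝒱 := h𝒱.le_of_ge hins (Set.subset_insert _ _)
      (Set.mem_insert _ _)
    exact hcon _ hmem x hxB hxB
  have hyO := hsub hyB
  have hVe : V = (t V : Set ι).pi (H V) := htH V (hB V hV)
  refine ⟨fun i => if i ∈ s ∧ i ∉ A' then (hG i).2.some else y i, ?_, ?_⟩
  · apply (hB V hV).2.1
    rw [hVe]
    rw [hVe] at hyV
    intro i hi
    have hiA : i ∈ A' := hA' (Set.mem_biUnion hV (hVe ▸ hi))
    have : ¬ (i ∈ s ∧ i ∉ A') := fun h => h.2 hiA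
    simp only [if_neg this]
    exact hyV i hi
  · intro i hi
    by_cases hiA : i ∈ A'
    · have : ¬ (i ∈ s ∧ i ∉ A') := fun h => h.2 hiA
      simp only [if_neg this]
      exact hyO.2 i ⟨hi, hiA⟩
    · simp only [if_pos (show i ∈ s ∧ i ∉ A' from ⟨hi, hiA⟩)]
      exact (hG i).2.some_mem

end Pool.Agent.W2helper51.DP
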